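import Pool.Agent.V11302.FM.Virt

/-!
# Virtual representations at a sparse set of primes

Let `f` be any function. There is a sequence `T` of prime numbers, growing faster than prescribed by `f`,
such that for every number field `K`, every subfield `K₀` of the algebraic numbers, every prime number `p`,
every finite extension `E` of `ℚ_p`, every set `A` of automorphisms of `E` over `ℚ_p` and every continuous
representation `ρ : G_K → GL_n(E)` which is unramified outside a finite set of primes and absolutely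
irreducible on every open subgroup (for example a `λ`-adic representation of an abelian variety of
`GL_2`-type without complex multiplication) the following holds. Assume that for every `g` in `G_{K₀}`, for
almost every `i` and every Frobenius element `σ` of `G_K` above `T i` whose conjugate `gσg⁻¹` is in `G_K`,
there are an element `a` of `A` and an exponent `m ≥ 1` (which may depend on `σ`) such that the
characteristic polynomial of `ρ(gσg⁻¹) ^ m` is the image under `a` of the characteristic polynomial of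
`ρ(σ) ^ m`. Then `ρ` is virtually defined over `K₀`, i.e. all conjugates of `ρ` by `G_{K₀}` become isomorphic,
up to automorphisms of the coefficients in `A`, over one finite Galois extension: there is an open
normal subgroup `V`, contained in `G_K`, such that for every `g` in `G_{K₀}` there are ONE `a` in `A`, an
invertible matrix `Q` and a character `ε`, trivial on `V`, with
`ρ(gσg⁻¹) = ε(σ) Q a(ρ(σ)) Q⁻¹` for all `σ` in `G_K` with `gσg⁻¹` in `G_K`.

Nothing is assumed at the places above `p`. The set `T` is very thin: there is a totally real field `L` of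
infinite degree, Galois and unramified at all finite places over a real quadratic field, in which all the
primes `T i` split completely.
-/

set_option autoImplicit false

namespace Pool.Agent.Results.MP_326854_nt.VirtualAtSparsePrimes

open NumberField IntermediateField Module

attribute [local instance 10] DivisionRing.toRatAlgebra

/-- the absolute Galois group of `ℚ` -/
abbrev GQ : Type := Gal(AlgebraicClosure ℚ/ℚ)

/-- the ring of all algebraic integers -/
abbrev ZBar : Type := 𝓞 (AlgebraicClosure ℚ)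

/-- `τ` lies in the inertia group at the maximal ideal `P` of the ring of all algebraic integers -/
def Inertia (P : Ideal ZBar) (τ : GQ) : Prop := ∀ x : ZBar, τ • x - x ∈ P

/-- `σ` is a (geometric) Frobenius element at the maximal ideal `P` above the prime number `q`: it induces
the inverse of `x ↦ x ^ q` on the residue field -/
def Frobenius (q : ℕ) (P : Ideal ZBar) (σ : GQ) : Prop := ∀ x : ZBar, x - (σ • x) ^ q ∈ P

/-- `L` is a totally real Galois extension of infinite degree of the real quadratic field `k`, unramified at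
all finite places, and a union of finite extensions of `ℚ` whose degrees are powers of two -/
structure UnramifiedTower (k L : IntermediateField ℚ (AlgebraicClosure ℚ)) : Prop where
  quadratic : finrank ℚ k = 2 ∧ ∃ s ∈ k,
    s ^ 2 = ((17 * 41 * 73 * 89 * 97 * 113 * 137 * 193 * 233 * 241 : ℕ) : AlgebraicClosure ℚ)
  le : k ≤ L
  infinite : ¬ FiniteDimensional ℚ L
  galois : ∀ σ : GQ, (∀ x ∈ k, σ x = x) → ∀ y ∈ L, σ y ∈ L
  unramified : ∀ q : ℕ, q.Prime → ∀ P : Ideal ZBar, P.IsMaximal → (q : ZBar) ∈ P → ∀ τ : GQ,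
    (∀ x ∈ k, τ x = x) → Inertia P τ → ∀ y ∈ L, τ y = y
  real : ∀ (φ : L →+* ℂ) (y : L), (φ y).im = 0
  two : ∀ y ∈ L, ∃ m : ℕ, finrank ℚ ℚ⟮y⟯ = 2 ^ m

/-- the prime number `q` is unramified and splits completely in `L`: all inertia elements and all Frobenius
elements above `q` fix `L` -/
def SplitsCompletely (q : ℕ) (L : IntermediateField ℚ (AlgebraicClosure ℚ)) : Prop :=
  ∀ P : Ideal ZBar, P.IsMaximal → (q : ZBar) ∈ P → ∀ σ : GQ, Inertia P σ ∨ Frobenius q P σ →
    ∀ y ∈ L, σ y = y

section rep

variable {K : IntermediateField ℚ (AlgebraicClosure ℚ)} {p : ℕ} [Fact p.Prime]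
  {E : IntermediateField ℚ_[p] (PadicAlgCl p)} {n : ℕ}

/-- `ρ` is continuous and unramified outside a finite set of primes -/
def AlmostUnramified (ρ : K.fixingSubgroup →* GL (Fin n) E) : Prop :=
  Continuous ρ ∧
  ∃ S : Finset ℕ, ∀ q : ℕ, q.Prime → q ∉ S → ∀ P : Ideal ZBar, P.IsMaximal → (q : ZBar) ∈ P →
    ∀ τ : K.fixingSubgroup, Inertia P τ → ρ τ = 1

/-- `ρ` is absolutely irreducible on every open subgroup: the matrices of the elements of an open subgroup
span the space of all matrices (theorem of Burnside) -/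
def StronglyIrreducible (ρ : K.fixingSubgroup →* GL (Fin n) E) : Prop :=
  ∀ V : Subgroup GQ, IsOpen (V : Set GQ) →
    Submodule.span E {X | ∃ σ : K.fixingSubgroup, (σ : GQ) ∈ V ∧
      X = (ρ σ : Matrix (Fin n) (Fin n) E)} = ⊤

/-- the conjugate of `ρ` by `g`, at the Frobenius elements above almost all `T i` and up to
powers, is the image of `ρ` under automorphisms in `A` (which may depend on the Frobenius element): for all
Frobenius elements `σ` of `G_K` above almost all `T i` with `gσg⁻¹` in `G_K` there are an automorphism `a` in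
`A` and an exponent `m ≥ 1` such that the characteristic polynomial of `ρ(gσg⁻¹) ^ m` is the image under `a` of
the characteristic polynomial of `ρ(σ) ^ m` -/
def ConjugateAgrees (T : ℕ → ℕ) (ρ : K.fixingSubgroup →* GL (Fin n) E) (A : Set (E ≃ₐ[ℚ_[p]] E))
    (g : GQ) : Prop :=
  ∃ i₀ : ℕ, ∀ i ≥ i₀, ∀ P : Ideal ZBar, P.IsMaximal → (T i : ZBar) ∈ P →
    ∀ σ σ' : K.fixingSubgroup, (σ' : GQ) = g * σ * g⁻¹ → Frobenius (T i) P σ → ∃ a ∈ A, ∃ m : ℕ, m ≠ 0 ∧
      ((ρ σ' : Matrix (Fin n) (Fin n) E) ^ m).charpoly =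
        (((ρ σ : Matrix (Fin n) (Fin n) E) ^ m).charpoly).map (a : E →+* E)

/-- the subgroup of all `σ` in `G_K` with `gσg⁻¹` in `G_K` -/
noncomputable def Common (K : IntermediateField ℚ (AlgebraicClosure ℚ)) (g : GQ) : Subgroup GQ :=
  K.fixingSubgroup ⊓ K.fixingSubgroup.comap (MulAut.conj g).toMonoidHom

/-- the conjugate of `ρ` by `g` is the twist of the image of `ρ` under the automorphism `a` of the
coefficients by a character `ε` which is trivial on `V` -/
def ConjugateIsTwist (ρ : K.fixingSubgroup →* GL (Fin n) E) (V : Subgroup GQ) (a : E ≃ₐ[ℚ_[p]] E)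
    (g : GQ) : Prop :=
  ∃ (Q : GL (Fin n) E) (ε : Common K g →* (E : Type)ˣ), (∀ σ : Common K g, (σ : GQ) ∈ V → ε σ = 1) ∧
    ∀ (τ : Common K g) (σ σ' : K.fixingSubgroup), (τ : GQ) = σ → (σ' : GQ) = g * σ * g⁻¹ →
      (ρ σ' : Matrix (Fin n) (Fin n) E) =
        (ε τ : E) • ((Q : Matrix (Fin n) (Fin n) E) *
          (ρ σ : Matrix (Fin n) (Fin n) E).map a *
          ((Q⁻¹ : GL (Fin n) E) : Matrix (Fin n) (Fin n) E))

end rep

/-- **Main result.** -/
theorem result (f : ℕ → ℕ) :
    ∃ (T : ℕ → ℕ) (k L : IntermediateField ℚ (AlgebraicClosure ℚ)),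
      (∀ i, (T i).Prime ∧ T i < T (i + 1) ∧ f (T i) < T (i + 1)) ∧
      UnramifiedTower k L ∧ (∀ i, SplitsCompletely (T i) L) ∧
      ∀ (K : IntermediateField ℚ (AlgebraicClosure ℚ)), FiniteDimensional ℚ K →
        ∀ (p : ℕ) [Fact p.Prime] (E : IntermediateField ℚ_[p] (PadicAlgCl p)),
        FiniteDimensional ℚ_[p] E → ∀ n : ℕ, 0 < n → ∀ (ρ : K.fixingSubgroup →* GL (Fin n) E),
          AlmostUnramified ρ → StronglyIrreducible ρ →
          ∀ (A : Set (E ≃ₐ[ℚ_[p]] E)) (K₀ : IntermediateField ℚ (AlgebraicClosure ℚ)),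
          (∀ g ∈ K₀.fixingSubgroup, ConjugateAgrees T ρ A g) →
          ∃ V : Subgroup GQ, IsOpen (V : Set GQ) ∧ V.Normal ∧ V ≤ K.fixingSubgroup ∧
            ∀ g ∈ K₀.fixingSubgroup, ∃ a ∈ A, ConjugateIsTwist ρ V a g := by
  obtain ⟨T, k, L, hT1, hT2, htow, hrep⟩ := Pool.Agent.V11302.FM.mainVirt f
  refine ⟨T, k, L, fun i => ⟨hT1 i, ?_, ?_⟩, ⟨⟨htow.rank, htow.sqrt⟩, htow.le, htow.inf, htow.galois,
    htow.unr, htow.real, htow.two⟩, ?_, ?_⟩
  · have := hT2 i
    omega
  · have := hT2 i
    have := (hT1 i).pos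
    omega
  · intro i P hP hTP σ hσ
    rcases hσ with hσ | hσ
    · exact htow.unrT i P hP hTP σ hσ
    · exact htow.split i P hP hTP σ hσ
  · intro K hK p hp E hE n hn ρ hρ hs A K₀ hag
    obtain ⟨hρc, S, hS⟩ := hρ
    obtain ⟨V, h1, h2, h3, h4⟩ := hrep K.fixingSubgroup K.fixingSubgroup_isOpen p E hE n ρ hρc
      ⟨S, fun q hq hqS P hP hqP τ hτ hτP => hS q hq hqS P hP hqP ⟨τ, hτ⟩ hτP⟩ hs hn A
      K₀.fixingSubgroup (fun g hg => by
        obtain ⟨i0, hi0⟩ := hag g hg
        refine ⟨i0, fun i hi P hP hTP σ h h' hfr => ?_⟩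
        obtain ⟨a, ha, m, hm, h1⟩ := hi0 i hi P hP hTP ⟨σ, h⟩ ⟨g * σ * g⁻¹, h'⟩ rfl hfr
        refine ⟨a, ha, m, hm, h1.trans ?_⟩
        exact (Matrix.charpoly_map _ (a : E →+* E)).symm)
    refine ⟨V, h1, h2, h3, fun g hg => ?_⟩
    obtain ⟨a, ha, Q, ε, h5, h6⟩ := h4 g hg
    refine ⟨a, ha, Q, ε, h5, fun τ σ σ' hτ hσ' => ?_⟩
    have h7 := h6 τ
    have e1 : Pool.Agent.V11302.FM.cj K.fixingSubgroup g τ = σ' := by
      apply Subtype.ext
      rw [hσ', ← hτ]
      rfl
    have e2 : Pool.Agent.V11302.FM.inc K.fixingSubgroup g τ = σ := by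
      apply Subtype.ext
      rw [← hτ]
      rfl
    rw [e1, e2] at h7
    exact h7


end Pool.Agent.Results.MP_326854_nt.VirtualAtSparsePrimes
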